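import Pool.Agent.Y624.SC.Stm

set_option autoImplicit false

namespace Pool.Agent.Y780.SC

open Finset

/-- the inner product of two combinations of vertices of a regular simplex -/
lemma gram_comb {d : ℕ} (hd : 2 ≤ d) (v : Fin (d + 1) → EuclideanSpace ℝ (Fin d))
    (h1 : ∀ i, ‖v i‖ = 1) (h2 : ∀ i j, i ≠ j → inner ℝ (v i) (v j) = -1 / (d : ℝ))
    (a b : Fin (d + 1) → ℝ) :
    (inner ℝ (∑ j, a j • v j) (∑ j, b j • v j) : ℝ) =
      (1 + 1 / (d : ℝ)) * ∑ j, a j * b j - (∑ j, a j) * (∑ j, b j) / d := by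
  have h3 : ∀ i j, (inner ℝ (v i) (v j) : ℝ) = (1 + 1 / (d : ℝ)) * (if i = j then 1 else 0)
      - 1 / d := by
    intro i j
    by_cases h : i = j
    · subst h
      rw [real_inner_self_eq_norm_sq, h1]; simp
    · rw [h2 i j h, if_neg h]; ring
  have h4 : (inner ℝ (∑ j, a j • v j) (∑ j, b j • v j) : ℝ) =
      ∑ i, ∑ j, (a i * b j * ((1 + 1 / (d : ℝ)) * (if i = j then 1 else 0)) - a i * b j * (1 / d)) := by
    rw [sum_inner]
    refine Finset.sum_congr rfl fun i _ => ?_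
    rw [inner_sum]
    refine Finset.sum_congr rfl fun j _ => ?_
    rw [real_inner_smul_left, real_inner_smul_right, h3]
    ring
  rw [h4]
  simp only [Finset.sum_sub_distrib]
  congr 1
  · rw [Finset.mul_sum]
    refine Finset.sum_congr rfl fun i _ => ?_
    rw [Finset.sum_eq_single i]
    · rw [if_pos rfl]; ring
    · intro j _ hj
      rw [if_neg (Ne.symm hj)]; ring
    · intro h; exact absurd (Finset.mem_univ _) h
  · rw [Finset.sum_mul_sum, Finset.sum_div]
    refine Finset.sum_congr rfl fun i _ => ?_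
    rw [Finset.sum_div]
    refine Finset.sum_congr rfl fun j _ => ?_
    ring

/-- Cauchy-Schwarz for the norm of a combination with support of cardinality at most `p` -/
lemma norm_lower {d : ℕ} (hd : 2 ≤ d) (v : Fin (d + 1) → EuclideanSpace ℝ (Fin d))
    (h1 : ∀ i, ‖v i‖ = 1) (h2 : ∀ i j, i ≠ j → inner ℝ (v i) (v j) = -1 / (d : ℝ))
    (a : Fin (d + 1) → ℝ) (P : Finset (Fin (d + 1))) (hP : ∀ j, j ∉ P → a j = 0)
    (hp : 0 < P.card) :
    (∑ j, a j) ^ 2 * ((d : ℝ) + 1 - P.card) / (d * P.card) ≤ ‖∑ j, a j • v j‖ ^ 2 := by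
  have hdR : (0 : ℝ) < d := by
    have : (2 : ℝ) ≤ d := by exact_mod_cast hd
    linarith
  have hpR : (0 : ℝ) < P.card := by exact_mod_cast hp
  have e1 : ∑ j, a j = ∑ j ∈ P, a j := by
    symm
    exact Finset.sum_subset (Finset.subset_univ P) fun j _ hj => hP j hj
  have e2 : ∑ j, a j ^ 2 = ∑ j ∈ P, a j ^ 2 := by
    symm
    refine Finset.sum_subset (Finset.subset_univ P) fun j _ hj => ?_
    rw [hP j hj]; ring
  have h3 : (∑ j, a j) ^ 2 ≤ P.card * ∑ j, a j ^ 2 := by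
    rw [e1, e2]
    exact sq_sum_le_card_mul_sum_sq
  have h4 : ‖∑ j, a j • v j‖ ^ 2 = (1 + 1 / (d : ℝ)) * ∑ j, a j ^ 2 - (∑ j, a j) ^ 2 / d := by
    rw [← real_inner_self_eq_norm_sq, gram_comb hd v h1 h2]
    congr 1
    · congr 1
      exact Finset.sum_congr rfl fun i _ => by ring
    · ring
  rw [h4]
  have h5 : (∑ j, a j) ^ 2 / P.card ≤ ∑ j, a j ^ 2 := by
    rw [div_le_iff₀ hpR]
    linarith
  have h6 : (∑ j, a j) ^ 2 * ((d : ℝ) + 1 - P.card) / (d * P.card) =
      (1 + 1 / (d : ℝ)) * ((∑ j, a j) ^ 2 / P.card) - (∑ j, a j) ^ 2 / d := by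
    field_simp
  rw [h6]
  have h7 : (0 : ℝ) ≤ 1 + 1 / (d : ℝ) := by positivity
  nlinarith [mul_le_mul_of_nonneg_left h5 h7]

lemma prod_le (d p q : ℕ) (h : p + q ≤ d) : p * q ≤ (d / 2) * (d - d / 2) := by
  obtain ⟨k, hk⟩ : ∃ k, k = d / 2 := ⟨_, rfl⟩
  rw [← hk]
  rcases Nat.even_or_odd' d with ⟨l, hl | hl⟩
  · have : k = l := by omega
    subst this
    have h2 : d - k = k := by omega
    rw [h2]
    have h3 : p + q ≤ 2 * k := by omega
    zify at h3 ⊢
    nlinarith [sq_nonneg ((p : ℤ) - q)]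
  · have : k = l := by omega
    subst this
    have h2 : d - k = k + 1 := by omega
    rw [h2]
    have h3 : p + q ≤ 2 * k + 1 := by omega
    zify at h3 ⊢
    by_contra hcon
    push Not at hcon
    have h4 : (4 : ℤ) * ((k : ℤ) * (k + 1)) + 4 ≤ 4 * (p * q) := by linarith
    have h5 : (4 : ℤ) * (p * q) ≤ (2 * k + 1) ^ 2 := by
      nlinarith [sq_nonneg ((p : ℤ) - q)]
    nlinarith

theorem done : Pool.Agent.Y624.SC.S_CELL2 := by
  classical
  intro d hd v h1 h2 a b ha0 hb0 ha hb hab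
  have hdR2 : (2 : ℝ) ≤ d := by exact_mod_cast hd
  have hdR : (0 : ℝ) < d := by linarith
  set A := ∑ j, a j with hA
  set B := ∑ j, b j with hB
  have hA0 : 0 ≤ A := Finset.sum_nonneg fun j _ => ha j
  have hB0 : 0 ≤ B := Finset.sum_nonneg fun j _ => hb j
  have hprod : ∑ j, a j * b j = 0 := Finset.sum_eq_zero fun j _ => by
    rcases hab j with h | h <;> rw [h] <;> ring
  have hin : - (inner ℝ (∑ j, a j • v j) (∑ j, b j • v j) : ℝ) = A * B / d := by
    rw [gram_comb hd v h1 h2, hprod]; ring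
  rw [hin]
  rcases hA0.eq_or_lt with hAz | hApos
  · rw [← hAz, zero_mul, zero_div]; positivity
  rcases hB0.eq_or_lt with hBz | hBpos
  · rw [← hBz, mul_zero, zero_div]; positivity
  let P : Finset (Fin (d + 1)) := Finset.univ.filter fun j => a j ≠ 0
  let Q : Finset (Fin (d + 1)) := Finset.univ.filter fun j => b j ≠ 0
  have hPm : ∀ j, j ∈ P ↔ a j ≠ 0 := fun j => by simp [P]
  have hQm : ∀ j, j ∈ Q ↔ b j ≠ 0 := fun j => by simp [Q]
  have hPz : ∀ j, j ∉ P → a j = 0 := fun j hj => by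
    by_contra h; exact hj ((hPm j).mpr h)
  have hQz : ∀ j, j ∉ Q → b j = 0 := fun j hj => by
    by_contra h; exact hj ((hQm j).mpr h)
  have hp : 0 < P.card := by
    rw [Finset.card_pos]
    by_contra h
    rw [Finset.not_nonempty_iff_eq_empty] at h
    apply hApos.ne'
    exact Finset.sum_eq_zero fun j _ => hPz j (by rw [h]; simp)
  have hq : 0 < Q.card := by
    rw [Finset.card_pos]
    by_contra h
    rw [Finset.not_nonempty_iff_eq_empty] at h
    apply hBpos.ne'
    exact Finset.sum_eq_zero fun j _ => hQz j (by rw [h]; simp)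
  have hdisj : Disjoint P Q := by
    rw [Finset.disjoint_left]
    intro j hj hj'
    rcases hab j with h | h
    · exact (hPm j).mp hj h
    · exact (hQm j).mp hj' h
  have hpq : P.card + Q.card ≤ d := by
    rw [← Finset.card_union_of_disjoint hdisj]
    have h3 : P ∪ Q ⊆ Finset.univ.erase 0 := by
      intro j hj
      rw [Finset.mem_erase]
      refine ⟨?_, Finset.mem_univ _⟩
      rintro rfl
      rcases Finset.mem_union.mp hj with h | h
      · exact (hPm _).mp h ha0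
      · exact (hQm _).mp h hb0
    have h4 := Finset.card_le_card h3
    rw [Finset.card_erase_of_mem (Finset.mem_univ _), Finset.card_univ, Fintype.card_fin] at h4
    omega
  have hk : d / 2 ≤ d := Nat.div_le_self _ _
  have hmN := prod_le d P.card Q.card hpq
  have hX := norm_lower hd v h1 h2 a P hPz hp
  have hY := norm_lower hd v h1 h2 b Q hQz hq
  rw [← hA] at hX
  rw [← hB] at hY
  set X := ‖∑ j, a j • v j‖ with hXd
  set Y := ‖∑ j, b j • v j‖ with hYd
  have hX0 : 0 ≤ X := norm_nonneg _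
  have hY0 : 0 ≤ Y := norm_nonneg _
  set p : ℝ := (P.card : ℝ) with hpdef
  set q : ℝ := (Q.card : ℝ) with hqdef
  set k : ℝ := ((d / 2 : ℕ) : ℝ) with hkdef
  have hpR : 0 < p := Nat.cast_pos.mpr hp
  have hqR : 0 < q := Nat.cast_pos.mpr hq
  have hpqR : p + q ≤ d := by
    rw [hpdef, hqdef, ← Nat.cast_add]
    exact Nat.cast_le.mpr hpq
  have hm : p * q ≤ k * (d - k) := by
    have h3 : ((P.card * Q.card : ℕ) : ℝ) ≤ (((d / 2) * (d - d / 2) : ℕ) : ℝ) := by
      exact_mod_cast hmN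
    rw [Nat.cast_mul, Nat.cast_mul, Nat.cast_sub hk] at h3
    exact h3
  set m := k * (d - k) with hmdef
  have hm0 : 0 < m := lt_of_lt_of_le (mul_pos hpR hqR) hm
  have hden : (k + 1) * (d - k + 1) = m + d + 1 := by rw [hmdef]; ring
  rw [hden]
  have hdenpos : 0 < m + d + 1 := by positivity
  have hR0 : 0 ≤ m / (m + d + 1) := by positivity
  have ht : 0 ≤ A * B / d := by positivity
  have key : (A * B / d) ^ 2 ≤ m / (m + d + 1) * (X * Y) ^ 2 := by
    have h3 : A ^ 2 * ((d : ℝ) + 1 - p) / (d * p) * (B ^ 2 * ((d : ℝ) + 1 - q) / (d * q)) ≤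
        X ^ 2 * Y ^ 2 := by
      apply mul_le_mul hX hY
      · apply div_nonneg
        · apply mul_nonneg (sq_nonneg _); linarith
        · positivity
      · positivity
    have h4 : (A * B / d) ^ 2 * (((d : ℝ) + 1 - p) * (d + 1 - q) / (p * q)) ≤ (X * Y) ^ 2 := by
      have : (A * B / d) ^ 2 * (((d : ℝ) + 1 - p) * (d + 1 - q) / (p * q)) =
          A ^ 2 * ((d : ℝ) + 1 - p) / (d * p) * (B ^ 2 * ((d : ℝ) + 1 - q) / (d * q)) := by
        field_simp
      rw [this, mul_pow]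
      exact h3
    have h5 : (m + d + 1) / m ≤ ((d : ℝ) + 1 - p) * (d + 1 - q) / (p * q) := by
      rw [div_le_div_iff₀ hm0 (mul_pos hpR hqR)]
      have h6 : ((d : ℝ) + 1 - p) * (d + 1 - q) = (d + 1) * (d + 1 - p - q) + p * q := by ring
      rw [h6]
      have h7 : (d : ℝ) + 1 ≤ (d + 1) * (d + 1 - p - q) := by
        nlinarith
      nlinarith [mul_pos hpR hqR]
    have h8 : (A * B / d) ^ 2 * ((m + d + 1) / m) ≤ (X * Y) ^ 2 :=
      (mul_le_mul_of_nonneg_left h5 (sq_nonneg _)).trans h4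
    calc (A * B / d) ^ 2 = m / (m + d + 1) * ((A * B / d) ^ 2 * ((m + d + 1) / m)) := by
          field_simp
      _ ≤ m / (m + d + 1) * (X * Y) ^ 2 := mul_le_mul_of_nonneg_left h8 hR0
  calc A * B / d = √((A * B / d) ^ 2) := (Real.sqrt_sq ht).symm
    _ ≤ √(m / (m + d + 1) * (X * Y) ^ 2) := Real.sqrt_le_sqrt key
    _ = √(m / (m + d + 1)) * (X * Y) := by
        rw [Real.sqrt_mul hR0, Real.sqrt_sq (mul_nonneg hX0 hY0)]

end Pool.Agent.Y780.SC
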